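import Pool.Agent.Helper853.Zm.Lelong

open MeasureTheory Filter
open scoped Topology

namespace Pool.Agent.Results.MP_ccc3c9_an.ZeroLelong

open Pool.Agent.Helper853.Zm

/-- Sanity check of the normalisation: the density of `(dd^c u)^n` for `u = (1/2) log (1 + |z|^2)`
has total mass `1` on `ℂ^n`. -/
theorem normalisation (n : ℕ) : ∫⁻ z : Fin n → ℂ, ENNReal.ofReal (maDensity
    (fun y => (1 / 2) * Real.log (1 + ∑ j, ‖y j‖ ^ 2)) z) = 1 :=
  Pool.Agent.Helper853.lintegral_maDensity_fsPot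

/-- For every `n ≥ 2` there is a plurisubharmonic function `φ` on the unit ball of `ℂ^n`, with
well-defined Monge-Ampere measure `μ = (dd^c φ)^n`, such that `μ({0}) > 0` although the Lelong
number of `φ` at `0` vanishes. In fact `φ` is finite and continuous off the origin and
`(dd^c φ)^n` is the Dirac mass at the origin. -/
theorem result : ∀ n : ℕ, 2 ≤ n → ∃ (φ : (Fin n → ℂ) → EReal) (μ : Measure (Fin n → ℂ)),
    IsPshOn (unitBall n) φ ∧ HasMA (unitBall n) φ μ ∧ 0 < μ {0} ∧ lelong0 φ = 0 ∧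
      (∀ z ∈ unitBall n, z ≠ 0 → φ z ≠ ⊥ ∧ ContinuousAt φ z) ∧ μ = Measure.dirac 0 := by
  intro n hn
  obtain ⟨m, rfl⟩ : ∃ m, n = m + 2 := ⟨n - 2, by omega⟩
  refine ⟨phi m, Measure.dirac 0, isPshOn_of_isPsh isPsh_phi ?_, hasMA_phi _, ?_, lelong0_phi, ?_,
    rfl⟩
  · refine ⟨Pi.single 0 (1 / 2 : ℂ), ?_, ?_⟩
    · have h : ∑ i, ‖(Pi.single 0 (1 / 2 : ℂ) : Fin (m + 2) → ℂ) i‖ ^ 2 = 1 / 4 := by
        rw [Finset.sum_eq_single 0]
        · simp
          norm_num
        · intro i _ hi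
          rw [Pi.single_apply, if_neg hi]
          simp
        · simp
      show ∑ i, ‖(Pi.single 0 (1 / 2 : ℂ) : Fin (m + 2) → ℂ) i‖ ^ 2 < 1
      rw [h]
      norm_num
    · rw [phi_eq]
      · exact EReal.coe_ne_bot _
      · intro h
        have h2 := congrFun h 0
        simp at h2
  · simp
  · intro z _ hz
    refine ⟨by rw [phi_eq hz]; exact EReal.coe_ne_bot _, ?_⟩
    have h1 : ContinuousAt (fun x => (Vc m x : EReal)) z :=
      continuous_coe_real_ereal.continuousAt.comp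
        (continuousOn_Vc.continuousAt (isOpen_compl_singleton.mem_nhds hz))
    refine h1.congr ?_
    filter_upwards [isOpen_compl_singleton.mem_nhds hz] with x hx
    rw [phi_eq hx]

end Pool.Agent.Results.MP_ccc3c9_an.ZeroLelong
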